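import Mathlib
import Pool.Agent.W463.H10.Fixed

/-!
# A fixed existential formula defines an `NP`-hard set in `ℚ`

If the integers were existentially definable in `ℚ`, then there would be existential formulas which
define undecidable sets of tuples of integers, and the solvability over `ℚ` of equations in some fixed
number of variables would be undecidable.  Here it is proved, unconditionally, that these problems
are `NP`-hard, for one explicit existential formula with five quantifiers, for equations in five
variables and for equations of degree four in nine variables.  The varieties in (1) are threefolds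
fibred in quadric surfaces over the fixed elliptic curve `y² = x³ - 2 x² + 65 x` of rank one.

Data are coded by bit strings (`bits`, integers in binary); polynomials are given by the lists of their
terms. The proof is in the starting library, `Pool.Agent.H528R3.FD` and `Pool.Agent.W463.H10`.
-/

set_option autoImplicit false

namespace Pool.Agent.Results.MP_28f2cb_lc.FixedDimensionNPHard

open Pool.Agent.NPC Pool.Agent.H528R3.FD Pool.Agent.W463.H10

/-- The set defined in `ℚ ^ 10` by an existential formula with five quantifiers: the set of the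
`(N, f₀, …, f₈)` such that there are rational `x, y, a, b, w` with `y² = x³ - 2 x² + 65 x` and
`a² - 2 b² + 2 N w² = N² + N (f₀ + f₁ x + ⋯ + f₈ x⁸)²`. -/
def Definable : Set (Fin 10 → ℚ) :=
  {t | ∃ x y a b w : ℚ, y ^ 2 = x ^ 3 - 2 * x ^ 2 + 65 * x ∧
    a ^ 2 - 2 * b ^ 2 + 2 * t 0 * w ^ 2 =
      t 0 ^ 2 + t 0 * (∑ i : Fin 9, t i.succ * x ^ (i : ℕ)) ^ 2}

/-- The polynomial with the list of terms `p`, where the pair `(c, [i₁, …, i_k])` stands for the term
`c * x i₁ * ⋯ * x i_k`, has degree at most `d`, contains only the variables `x i`, `i < n`, and has a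
rational zero. -/
def HasRationalZero (d n : ℕ) (p : List (ℤ × List ℕ)) : Prop :=
  (∀ t ∈ p, t.2.length ≤ d ∧ ∀ i ∈ t.2, i < n) ∧
    ∃ x : ℕ → ℚ, (p.map fun t => (t.1 : ℚ) * (t.2.map x).prod).sum = 0

lemma hard_of' {β : Type} [TEnc β] {Q : β → Prop} {F : ℤ × List ℤ → β}
    (hF : NPC.Poly F) (h : ∀ p : ℤ × List ℤ, p.2.length = 9 → (Solv p.1 p.2 ↔ Q (F p))) :
    NPHardP Q := by
  have h1 := H692R2.hardPr_col3.trans (Pr' := fun p : ℤ × List ℤ => p.2.length = 9)
    (Q := fun p : ℤ × List ℤ => p.2.length = 9 ∧ Solv p.1 p.2)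
    (poly_NN_FF_of poly_zz poly_redE upoly_sum) (fun _ _ => length_FF _) (fun E hE => by
      rw [redE_col hE, ← solv_iff (redE_good hE)]
      exact ⟨fun h => ⟨length_FF _, h⟩, fun h => h.2⟩)
  have h2 := h1.trans (Pr' := fun _ => True) (Q := Q) hF (fun _ _ => trivial) (fun p hp => by
    rw [← h p hp]; exact ⟨fun h => h.2, fun h => ⟨hp, h⟩⟩)
  exact h2.toHardI.toNPHardP

/-- **A fixed existential formula defines an `NP`-hard set in `ℚ`.**

(1) It is `NP`-hard to decide whether a list of ten integers belongs to the set `Definable`, defined in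
`ℚ ^ 10` by an existential formula with five quantifiers.

(2) It is `NP`-hard to decide whether an equation of degree at most `4` in `9` variables has a rational
solution.

(3) It is `NP`-hard to decide whether an equation of degree at most `32` in `5` variables has a
rational solution. -/
theorem result :
    NPHardP (fun t : List ℤ => t.length = 10 ∧ (fun i : Fin 10 => ((t.getD i 0 : ℤ) : ℚ)) ∈ Definable) ∧
    NPHardP (HasRationalZero 4 9) ∧
    NPHardP (HasRationalZero 32 5) := by
  refine ⟨?_, hard_nine, hard_five⟩
  refine hard_of' (F := fun p => p.1 :: p.2) (NPC.Poly.cons (NPC.Poly.fst NPC.Poly.id)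
    (NPC.Poly.snd NPC.Poly.id)) ?_
  rintro ⟨N, f⟩ hf
  simp only at hf
  have key : ∀ x : ℚ, (∑ i : Fin 9, (((N :: f).getD (i.succ : Fin 10) 0 : ℤ) : ℚ) * x ^ (i : ℕ)) =
      ∑ i ∈ Finset.range 9, ((f.getD i 0 : ℤ) : ℚ) * x ^ i := by
    intro x
    rw [Finset.sum_range]
    refine Finset.sum_congr rfl fun i _ => ?_
    simp
  constructor
  · rintro ⟨x, y, a, b, w, h1, h2⟩
    refine ⟨by simp [hf], x, y, a, b, w, h1, ?_⟩
    have h0 : (((N :: f).getD ((0 : Fin 10) : ℕ) 0 : ℤ) : ℚ) = N := by simp
    beta_reduce
    rw [h0, key x]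
    exact h2
  · rintro ⟨-, x, y, a, b, w, h1, h2⟩
    refine ⟨x, y, a, b, w, h1, ?_⟩
    have h0 : (((N :: f).getD ((0 : Fin 10) : ℕ) 0 : ℤ) : ℚ) = N := by simp
    beta_reduce at h2
    rw [h0, key x] at h2
    exact h2

end Pool.Agent.Results.MP_28f2cb_lc.FixedDimensionNPHard
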