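import Mathlib
import Pool.Agent.H528R3.Huge

/-!
# Short existential formulas which define nonempty sets of huge rational numbers

If the integers were existentially definable in `ℚ`, there would be existential formulas of linear
length which define nonempty sets of rational numbers whose heights all exceed any given computable
function of the length.  Here it is proved, unconditionally, that there are existential formulas
`∃ y, p (t, y) = 0`, given by one polynomial of degree at most `4`, of linear length, which define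
nonempty sets of rational numbers `t` all of which have quadruply exponential height.

The proof (chains of multiples of a point on an elliptic curve) is in the starting library,
`Pool.Agent.H528R3`.
-/

set_option autoImplicit false

namespace Pool.Agent.Results.MP_28f2cb_lc.HugeElements

open MvPolynomial Pool.Agent.H528R3

/-- The height of a rational number: the maximum of the absolute values of numerator and denominator. -/
def height (t : ℚ) : ℕ := max t.num.natAbs t.den

/-- The set defined in `ℚ` by the existential formula `∃ y₁ … y_k, p (t, y₁, …, y_k) = 0`. -/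
def Defined {k : ℕ} (p : MvPolynomial (Fin (k + 1)) ℤ) : Set ℚ :=
  {t | ∃ y : Fin k → ℚ, aeval (Fin.cons t y : Fin (k + 1) → ℚ) p = 0}

/-- **Existential formulas of linear length which define nonempty sets of rational numbers of quadruply
exponential height.** There is a constant `C` such that for every `n` there is a polynomial
`p (t, y₁, …, y_k)` with integer coefficients of degree at most `4`, with at most `C (n + 1)` variables
and with sum of the absolute values of the coefficients at most `C (n + 1)`, such that the set of the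
`t ∈ ℚ` for which `p (t, y) = 0` is solvable in rational numbers `y₁, …, y_k` is not empty, and all its
elements have height at least `2 ^ 2 ^ 2 ^ 2 ^ n`. In particular `p` has rational zeros, and all of them
have at least this height. -/
theorem result : ∃ C : ℕ, ∀ n : ℕ, ∃ (k : ℕ) (p : MvPolynomial (Fin (k + 1)) ℤ),
    k + 1 ≤ C * (n + 1) ∧ p.totalDegree ≤ 4 ∧ ∑ m ∈ p.support, |p.coeff m| ≤ C * (n + 1) ∧
    (Defined p).Nonempty ∧ ∀ t ∈ Defined p, 2 ^ (2 ^ (2 ^ (2 ^ n))) ≤ height t := by
  obtain ⟨s, hs⟩ := chain_huge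
  obtain ⟨r, B, hr⟩ := chain_poly dio_start dio_step
  refine ⟨(s + 1) * (2 + r) + (s + 1) * B.toNat, fun n => ?_⟩
  set C := (s + 1) * (2 + r) + (s + 1) * B.toNat with hC
  have hCpos : 0 < C := by
    have : 0 < (s + 1) * (2 + r) := by positivity
    omega
  obtain ⟨k, hk⟩ : ∃ k, C * (n + 1) = k + 1 :=
    Nat.exists_eq_succ_of_ne_zero (by positivity)
  obtain ⟨p, hd, hl, hp⟩ := hr (n + s)
  have hcard : Fintype.card (Fin (n + s + 1) × (Fin 2 ⊕ Fin r)) ≤ Fintype.card (Fin (k + 1)) := by
    simp only [Fintype.card_prod, Fintype.card_sum, Fintype.card_fin]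
    have h1 : n + s + 1 ≤ (s + 1) * (n + 1) := by nlinarith
    calc (n + s + 1) * (2 + r) ≤ ((s + 1) * (n + 1)) * (2 + r) := Nat.mul_le_mul_right _ h1
      _ = ((s + 1) * (2 + r)) * (n + 1) := by ring
      _ ≤ C * (n + 1) := Nat.mul_le_mul_right _ (by omega)
      _ = k + 1 := hk
  obtain ⟨ι₀⟩ := Function.Embedding.nonempty_of_card_le hcard
  set a : Fin (n + s + 1) × (Fin 2 ⊕ Fin r) := (⟨n + s, by omega⟩, Sum.inl 0) with ha
  obtain ⟨ι, hι⟩ : ∃ ι : Fin (n + s + 1) × (Fin 2 ⊕ Fin r) ↪ Fin (k + 1), ι a = 0 :=
    ⟨ι₀.trans (Equiv.swap (ι₀ a) 0).toEmbedding, by simp⟩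
  have hall : ∀ x : Fin (k + 1) → ℚ, aeval x (rename ι p) = 0 →
      2 ^ (2 ^ (2 ^ (2 ^ n))) ≤ height (x 0) := by
    intro x hx
    rw [aeval_rename] at hx
    have hch : ChR (n + s)
        (fun i j => if h : i < n + s + 1 then x (ι (⟨i, h⟩, Sum.inl j)) else 0) := by
      have := (hp (fun i j => if h : i < n + s + 1 then x (ι (⟨i, h⟩, Sum.inl j)) else 0)).2
        ⟨x ∘ ι, fun i j => by simp only [Function.comp, dif_pos i.2], hx⟩
      exact this
    have h1 := hs n _ hch
    simp only [dif_pos (show n + s < n + s + 1 by omega)] at h1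
    rw [← hι]
    exact h1
  refine ⟨k, rename ι p, hk.ge, (totalDegree_rename_le _ _).trans hd, ?_, ?_, ?_⟩
  · change l1 (rename ι p) ≤ _
    refine (l1_rename _ _).trans (hl.trans ?_)
    have h1 : B ≤ B.toNat := Int.self_le_toNat B
    have h2 : ((n + s : ℕ) : ℤ) + 1 ≤ ((s : ℤ) + 1) * (n + 1) := by push_cast; nlinarith
    have h3 : (0 : ℤ) ≤ (B.toNat : ℤ) := by positivity
    have h4 : (0 : ℤ) ≤ ((n + s : ℕ) : ℤ) + 1 := by positivity
    calc B * (((n + s : ℕ) : ℤ) + 1) ≤ B.toNat * (((n + s : ℕ) : ℤ) + 1) :=
          mul_le_mul_of_nonneg_right h1 h4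
      _ ≤ B.toNat * (((s : ℤ) + 1) * (n + 1)) := mul_le_mul_of_nonneg_left h2 h3
      _ = (((s + 1) * B.toNat : ℕ) : ℤ) * (n + 1) := by push_cast; ring
      _ ≤ (C : ℤ) * (n + 1) := by
          apply mul_le_mul_of_nonneg_right _ (by positivity)
          have : (s + 1) * B.toNat ≤ C := by omega
          exact_mod_cast this
  · obtain ⟨x, hx⟩ := chR_exists (n + s)
    obtain ⟨y, -, hy⟩ := (hp x).1 hx
    obtain ⟨z, hz⟩ := Function.Injective.surjective_comp_right (γ := ℚ) ι.injective y
    refine ⟨z 0, Fin.tail z, ?_⟩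
    have hz0 : (Fin.cons (z 0) (Fin.tail z) : Fin (k + 1) → ℚ) = z := Fin.cons_self_tail z
    rw [hz0, aeval_rename]
    have hz' : z ∘ (ι : _ → _) = y := hz
    rw [hz', hy]
  · rintro t ⟨y, hy⟩
    have := hall _ hy
    simpa using this

end Pool.Agent.Results.MP_28f2cb_lc.HugeElements
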