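import Mathlib
import Pool.Agent.H528R2.Final

/-!
# The existential theory of the field `ℚ` is `NEXP`-hard, and neither in `NP` nor in `coNP`

If the integers were existentially definable in `ℚ`, the existential theory of `ℚ` would be
undecidable.  It is proved here, unconditionally, that it is hard for nondeterministic exponential
time, already for one equation of degree at most `4`.  So it has no polynomial-time decision
procedure, and there are neither certificates of polynomial length (verifiable in polynomial time) for
the solvability over `ℚ` of quartic equations nor for their unsolvability.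

Formulas are coded by bit strings (`bits`: the code of the reverse Polish notation, with the indices of
the variables in binary). The proof is in the starting library, `Pool.Agent.H528R2`.
-/

set_option autoImplicit false

namespace Pool.Agent.Results.MP_28f2cb_lc.NexpHardness

open Pool.Agent.NPC Pool.Agent.H528R2
open Pool.Agent.NPC.H573Q (tdeg)

/-- The (codes of the) equations `t = 0` which are solvable over `ℚ`, where `t` is a term of degree at
most `4` in the language of rings. -/
def Quartics : Set (List Bool) :=
  {w | ∃ t : ER.Tm, bits (QFm.eq t .zero) = w ∧ tdeg t ≤ 4 ∧ ∃ x : ℕ → ℚ, evalQ x t = 0}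

/-- The existential theory of `ℚ`: the (codes of the) quantifier-free formulas of the language of rings
whose existential closure is true in `ℚ`. -/
def ExistentialTheory : Set (List Bool) :=
  {w | ∃ φ : QFm, bits φ = w ∧ ∃ x : ℕ → ℚ, φ.Holds x}

/-- **The existential theory of `ℚ` is `NEXP`-hard.**

(1) For every language `L` in `NEXP` there are terms `t w` of degree at most `4`, for all bit strings
`w`, such that the code of `t w` can be computed in polynomial time and `w ∈ L` if and only if the
equation `t w = 0` has a rational solution.

(2) The solvability over `ℚ` of equations of degree at most `4` is `NEXP`-hard under polynomial-time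
many-one reductions, and it is not in `P`, not in `NP` and not in `coNP`.

(3) The same is true of the existential theory of `ℚ`. -/
theorem result :
    (∀ L : Set (List Bool), InNEXP L →
      ∃ t : List Bool → ER.Tm, (∀ w, tdeg (t w) ≤ 4) ∧
        PolyTime (fun w => bits (QFm.eq (t w) .zero)) ∧
        ∀ w, w ∈ L ↔ ∃ x : ℕ → ℚ, evalQ x (t w) = 0) ∧
    (NEXPHard Quartics ∧ ¬ InP Quartics ∧ ¬ InNP Quartics ∧ ¬ InCoNP Quartics) ∧
    (NEXPHard ExistentialTheory ∧ ¬ InP ExistentialTheory ∧ ¬ InNP ExistentialTheory ∧
      ¬ InCoNP ExistentialTheory) := by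
  have h1 : ∀ L : Set (List Bool), InNEXP L →
      ∃ t : List Bool → ER.Tm, (∀ w, tdeg (t w) ≤ 4) ∧
        PolyTime (fun w => bits (QFm.eq (t w) .zero)) ∧
        ∀ w, w ∈ L ↔ ∃ x : ℕ → ℚ, evalQ x (t w) = 0 := by
    intro L hL
    obtain ⟨t, h1, h2, h3⟩ := quartic_hard hL
    exact ⟨t, h1, h2, fun w => h3 w⟩
  have h2 : NEXPHard Quartics := by
    intro L hL
    obtain ⟨t, ht, hp, hw⟩ := h1 L hL
    refine ⟨_, hp, fun w => ?_⟩
    rw [hw w]
    constructor
    · intro hx
      exact ⟨t w, rfl, ht w, hx⟩
    · rintro ⟨t', h', -, hx⟩
      have := bits_injective h'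
      injection this with h4 h5
      rwa [h4] at hx
  have h3 : NEXPHard ExistentialTheory := nexpHard_etq
  exact ⟨h1, ⟨h2, h2.not_inP, h2.not_inNP, h2.not_inCoNP⟩, ⟨h3, h3.not_inP, h3.not_inNP, h3.not_inCoNP⟩⟩

end Pool.Agent.Results.MP_28f2cb_lc.NexpHardness
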