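import Mathlib
import Pool.Agent.TH588.UQ.Main

/-!
# One cannot decide whether an existential formula defines `ℚ` in `ℚ`

There is one polynomial `F(c, t, x₁, …, xₙ)` of degree at most `4` with integer coefficients such that
no algorithm separates the integers `c` for which the existential formula `∃ x, F(c, t, x) = 0` defines
the whole field `ℚ` from the integers `c` for which the complement of the set defined by it is dense.
In other words: for one-parameter families of quartic equations over `ℚ` one cannot decide whether
all members have a rational solution (one universal quantifier, unconditionally).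

The machinery (generalised Collatz maps, cells of inert primes, elliptic divisibility sequences) is
in the starting library, `Pool.Agent.TH588.UQ` and `Pool.Agent.H528R2`.
-/

set_option autoImplicit false

namespace Pool.Agent.Results.MP_28f2cb_lc.OneUniversalQuantifier

open MvPolynomial

/-- The set of the `t ∈ ℚ` which satisfy the existential formula `∃ x₁ … xₙ, F (c, t, x) = 0`. -/
def Defined {n : ℕ} (F : MvPolynomial (Fin 2 ⊕ Fin n) ℤ) (c : ℕ) : Set ℚ :=
  {t | ∃ x : Fin n → ℚ, aeval (Sum.elim ![(c : ℚ), t] x) F = 0}

/-- There are `n` and a polynomial `F(c, t, x₁, …, xₙ)` of degree at most `4` with integer coefficients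
with the following properties. For natural `c` let `D c` be the set of the rational `t` such that
`F(c, t, x) = 0` for some `x ∈ ℚⁿ`.

(1) For every recursively enumerable `P ⊆ ℕ` there is a computable `g` such that for all `a`: if
`a ∉ P` then `D (g a) = ℚ`; if `a ∈ P` then a squarefree natural number is not in `D (g a)` and the
complement of `D (g a)` is dense in `ℚ`.

(2) No computable set contains all `c` with `D c = ℚ` and none of the `c` for which the complement of
`D c` is dense.

(3) The set of the `c` with `D c = ℚ` is not recursively enumerable. -/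
theorem result : ∃ (n : ℕ) (F : MvPolynomial (Fin 2 ⊕ Fin n) ℤ), F.totalDegree ≤ 4 ∧
    (∀ P : ℕ → Prop, REPred P → ∃ g : ℕ → ℕ, Computable g ∧ ∀ a : ℕ,
      (¬ P a → Defined F (g a) = Set.univ) ∧
      (P a → (∃ t : ℕ, Squarefree t ∧ (t : ℚ) ∉ Defined F (g a)) ∧ Dense (Defined F (g a))ᶜ)) ∧
    (¬ ∃ S : ℕ → Prop, ComputablePred S ∧ ∀ c : ℕ,
      (Defined F c = Set.univ → S c) ∧ (Dense (Defined F c)ᶜ → ¬ S c)) ∧
    ¬ REPred fun c : ℕ => Defined F c = Set.univ := by
  obtain ⟨n, F, hF, h⟩ := Pool.Agent.TH588.UQ.main
  have key : ∀ P : ℕ → Prop, REPred P → ∃ g : ℕ → ℕ, Computable g ∧ ∀ a : ℕ,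
      (¬ P a → Defined F (g a) = Set.univ) ∧
      (P a → (∃ t : ℕ, Squarefree t ∧ (t : ℚ) ∉ Defined F (g a)) ∧
        Dense (Defined F (g a))ᶜ) := by
    intro P hP
    obtain ⟨g, hg, hga⟩ := h P hP
    refine ⟨g, hg, fun a => ⟨fun ha => ?_, fun ha => ?_⟩⟩
    · exact Set.eq_univ_of_forall fun t => (hga a).1 ha t
    · obtain ⟨⟨t, ht, hx⟩, hd⟩ := (hga a).2 ha
      refine ⟨⟨t, ht, fun ⟨x, hx'⟩ => hx x hx'⟩, ?_⟩
      rw [dense_iff_exists_between]
      intro u v huv
      obtain ⟨t, h1, h2, h3⟩ := hd u v huv
      exact ⟨t, fun ⟨x, hx'⟩ => h3 x hx', h1, h2⟩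
  -- a recursively enumerable set of natural numbers which is not computable
  have hK : ∃ P : ℕ → Prop, REPred P ∧ ¬ REPred fun a => ¬ P a := by
    let e : ℕ → Nat.Partrec.Code := fun a => Denumerable.ofNat Nat.Partrec.Code a
    have he : Computable e := Computable.ofNat _
    refine ⟨fun a => (Nat.Partrec.Code.eval (e a) 0).Dom, ?_, fun hn => ?_⟩
    · have h1 : REPred fun c : Nat.Partrec.Code => (Nat.Partrec.Code.eval c 0).Dom :=
        ComputablePred.halting_problem_re 0
      exact Partrec.comp h1 he
    · refine ComputablePred.halting_problem_not_re 0 ?_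
      have h2 : REPred fun c : Nat.Partrec.Code =>
          ¬ (Nat.Partrec.Code.eval (e (Encodable.encode c)) 0).Dom :=
        Partrec.comp hn Computable.encode
      refine h2.of_eq fun c => ?_
      simp [e]
  obtain ⟨P, hP, hPn⟩ := hK
  obtain ⟨g, hg, hga⟩ := key P hP
  have hsep : ∀ a, Dense (Defined F (g a))ᶜ → ¬ Defined F (g a) = Set.univ := by
    intro a hd hu
    rw [hu, Set.compl_univ] at hd
    exact absurd hd.nonempty Set.not_nonempty_empty
  refine ⟨n, F, hF, key, ?_, ?_⟩
  · rintro ⟨S, hS, hSc⟩
    refine hPn ?_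
    have h1 : ∀ a, S (g a) ↔ ¬ P a := by
      intro a
      constructor
      · intro hs hPa
        exact (hSc (g a)).2 ((hga a).2 hPa).2 hs
      · intro hPa
        exact (hSc (g a)).1 ((hga a).1 hPa)
    have h2 : REPred fun a => S (g a) := Partrec.comp hS.to_re hg
    exact h2.of_eq h1
  · intro hre
    refine hPn ?_
    have h2 : REPred fun a => Defined F (g a) = Set.univ := Partrec.comp hre hg
    refine h2.of_eq fun a => ?_
    constructor
    · intro hu hPa
      exact hsep a ((hga a).2 hPa).2 hu
    · exact (hga a).1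

end Pool.Agent.Results.MP_28f2cb_lc.OneUniversalQuantifier
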